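import Pool.Agent.H358R5.Gaps
import Pool.Agent.H804.Powers

/-!
# Patterns of four consecutive primes between consecutive fifth powers

Every set of at least 290687 integers which misses a residue class modulo every prime contains, for all
`ε > 0` and all large `N`, four elements `s 0 < s 1 < s 2 < s 3` whose pattern is very frequent between
consecutive fifth powers: for at least `N ^ (1 - ε)` of the `n ≤ N` there are at least `n ^ (4 - ε)` primes `p`
such that `p, p + s 1 - s 0, p + s 2 - s 0, p + s 3 - s 0` are four consecutive primes between `n ^ 5` and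
`(n + 1) ^ 5`. In particular this holds for a pattern of diameter at most 4209616.

The input is the theorem of Maynard and Tao with explicit constants in the starting files
(`Pool.Agent.H358R5`: `4 m + 0.58 ≤ log K`, here `m = 3`).
-/

set_option autoImplicit false

open Finset Filter

namespace Pool.Agent.Results.MP_c03ca8_nt.FourConsecutivePrimes

open Pool.Agent.H804.Powers

/-- The number of the `p` for which `p < p + a < p + b < p + c` are four consecutive primes (they are primes and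
there are no other primes between `p` and `p + c`) between `n ^ 5` and `(n + 1) ^ 5`. -/
noncomputable def quadruplets (a b c n : ℕ) : ℕ :=
  {p : ℕ | p.Prime ∧ (p + a).Prime ∧ (p + b).Prime ∧ (p + c).Prime ∧
    (∀ r : ℕ, r.Prime → p ≤ r → r ≤ p + c → r = p ∨ r = p + a ∨ r = p + b ∨ r = p + c) ∧
    n ^ 5 < p ∧ p + c < (n + 1) ^ 5}.ncard

/-- four consecutive primes with differences `a, b, c` from the first one -/
def Quad (a b c p : ℕ) : Prop :=
  p.Prime ∧ (p + a).Prime ∧ (p + b).Prime ∧ (p + c).Prime ∧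
    ∀ r : ℕ, r.Prime → p ≤ r → r ≤ p + c → r = p ∨ r = p + a ∨ r = p + b ∨ r = p + c

/-- four consecutive primes in a set of primes -/
lemma four {K : ℕ} (a : Fin K → ℤ) (n : ℕ)
    (h1 : 3 + 1 ≤ Set.ncard {i : Fin K | ∃ p : ℕ, p.Prime ∧ (p : ℤ) = n + a i})
    (hinj : Function.Injective a)
    (h2 : ∀ p : ℕ, p.Prime → (∃ i j, (n : ℤ) + a i ≤ p ∧ (p : ℤ) ≤ n + a j) → ∃ i, (p : ℤ) = n + a i) :
    ∃ θ : Fin 4 → Fin K, a (θ 0) < a (θ 1) ∧ a (θ 1) < a (θ 2) ∧ a (θ 2) < a (θ 3) ∧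
      ∃ p : ℕ, (p : ℤ) = n + a (θ 0) ∧ Quad (a (θ 1) - a (θ 0)).toNat (a (θ 2) - a (θ 0)).toNat
        (a (θ 3) - a (θ 0)).toNat p := by
  classical
  obtain ⟨I, hI⟩ : ∃ I : Finset (Fin K), I = univ.filter (fun i => ∃ p : ℕ, p.Prime ∧ (p : ℤ) = n + a i) :=
    ⟨_, rfl⟩
  have hIc : 4 ≤ (I.image a).card := by
    rw [card_image_of_injective _ hinj]
    have : Set.ncard {i : Fin K | ∃ p : ℕ, p.Prime ∧ (p : ℤ) = n + a i} = I.card := by
      rw [← Set.ncard_coe_finset, hI]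
      congr 1
      ext i
      simp
    omega
  obtain ⟨S, hST, hS4, hlow⟩ := Pool.Agent.H358R5.PAT_lower (I.image a) 4 hIc
  have hmem : ∀ k : Fin 4, ∃ i : Fin K, i ∈ I ∧ a i = S.orderEmbOfFin hS4 k := by
    intro k
    have := hST (S.orderEmbOfFin_mem hS4 k)
    obtain ⟨i, hi, hi2⟩ := mem_image.1 this
    exact ⟨i, hi, hi2⟩
  choose θ hθI hθ using hmem
  have hprime : ∀ k : Fin 4, ∃ p : ℕ, p.Prime ∧ (p : ℤ) = n + a (θ k) := by
    intro k
    have := hθI k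
    rw [hI, mem_filter] at this
    exact this.2
  have hmono : ∀ k l : Fin 4, k < l → a (θ k) < a (θ l) := by
    intro k l hkl
    rw [hθ k, hθ l]
    exact (S.orderEmbOfFin hS4).strictMono hkl
  have hall : ∀ t ∈ S, ∃ k : Fin 4, t = a (θ k) := by
    intro t ht
    have : t ∈ Set.range (S.orderEmbOfFin hS4) := by
      rw [Finset.range_orderEmbOfFin]; exact ht
    obtain ⟨k, hk⟩ := this
    exact ⟨k, by rw [hθ k]; exact hk.symm⟩
  have h01 := hmono 0 1 (by decide)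
  have h12 := hmono 1 2 (by decide)
  have h23 := hmono 2 3 (by decide)
  obtain ⟨p, hp, hpn⟩ := hprime 0
  obtain ⟨p1, hp1, hpn1⟩ := hprime 1
  obtain ⟨p2, hp2, hpn2⟩ := hprime 2
  obtain ⟨p3, hp3, hpn3⟩ := hprime 3
  have e1 : p + (a (θ 1) - a (θ 0)).toNat = p1 := by omega
  have e2 : p + (a (θ 2) - a (θ 0)).toNat = p2 := by omega
  have e3 : p + (a (θ 3) - a (θ 0)).toNat = p3 := by omega
  refine ⟨θ, h01, h12, h23, p, hpn, hp, ?_, ?_, ?_, ?_⟩
  · rw [e1]; exact hp1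
  · rw [e2]; exact hp2
  · rw [e3]; exact hp3
  · intro r hr hr1 hr2
    rw [e3] at hr2
    rw [e1, e2, e3]
    obtain ⟨i, hi⟩ := h2 r hr ⟨θ 0, θ 3, by omega, by omega⟩
    have hiI : a i ∈ I.image a := by
      refine mem_image_of_mem _ ?_
      rw [hI, mem_filter]
      exact ⟨mem_univ _, r, hr, hi⟩
    have hS3 : a (θ 3) ∈ S := by rw [hθ 3]; exact S.orderEmbOfFin_mem hS4 3
    have hiS : a i ∈ S := hlow (a i) hiI (a (θ 3)) hS3 (by omega)
    obtain ⟨k, hk⟩ := hall (a i) hiS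
    fin_cases k
    · left
      have : a i = a (θ 0) := hk
      omega
    · right; left
      have : a i = a (θ 1) := hk
      omega
    · right; right; left
      have : a i = a (θ 2) := hk
      omega
    · right; right; right
      have : a i = a (θ 3) := hk
      omega

open Classical in
lemma core {K : ℕ} (hK : (290687 : ℕ) ≤ K) (a : Fin K → ℤ) (hinj : Function.Injective a)
    (hadm : ∀ p : ℕ, p.Prime → ∃ r : ℤ, ∀ i, ¬ (p : ℤ) ∣ r + a i) (ε : ℝ) (hε : 0 < ε) :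
    ∀ᶠ N : ℕ in atTop, ∃ θ : Fin 4 → Fin K, a (θ 0) < a (θ 1) ∧ a (θ 1) < a (θ 2) ∧ a (θ 2) < a (θ 3) ∧
      (N : ℝ) ^ (1 - ε) ≤ (((Icc 1 N).filter (fun n : ℕ => (n : ℝ) ^ (4 - ε) ≤
        (quadruplets (a (θ 1) - a (θ 0)).toNat (a (θ 2) - a (θ 0)).toNat
          (a (θ 3) - a (θ 0)).toNat n : ℝ))).card : ℝ) := by
  have hlog : 4 * ((3 : ℕ) : ℝ) + 29 / 50 ≤ Real.log K := by
    have h1 := Pool.Agent.H358R5.LOG_proof.2
    have h2 : Real.log 290687 ≤ Real.log K := Real.log_le_log (by norm_num) (by exact_mod_cast hK)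
    push_cast
    exact h1.trans h2
  have h := family (Θ := Fin 4 → Fin K) 4 (by norm_num) (fun θ => a (θ 0)) (fun θ => (a (θ 3) - a (θ 0)).toNat)
    (fun θ => {p | (a (θ 0) < a (θ 1) ∧ a (θ 1) < a (θ 2) ∧ a (θ 2) < a (θ 3)) ∧
      Quad (a (θ 1) - a (θ 0)).toNat (a (θ 2) - a (θ 0)).toNat (a (θ 3) - a (θ 0)).toNat p})
    (fun θ p hp => hp.2.1.one_le) (by
      intro δ hδ
      filter_upwards [Pool.Agent.H358R5.CONS_proof 3 K (by norm_num)
        (Pool.Agent.H358R5.chyp 3 K (by norm_num) hlog) a hinj hadm δ hδ] with x hx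
      have hfin : {n : ℕ | 1 ≤ n ∧ (n : ℝ) ≤ x ∧
          3 + 1 ≤ Set.ncard {i : Fin K | ∃ p : ℕ, p.Prime ∧ (p : ℤ) = n + a i} ∧
          ∀ p : ℕ, p.Prime → (∃ i j, (n : ℤ) + a i ≤ p ∧ (p : ℤ) ≤ n + a j) →
            ∃ i, (p : ℤ) = n + a i}.Finite := by
        apply (Set.finite_Iic ⌊x⌋₊).subset
        intro n hn
        exact Nat.le_floor hn.2.1
      refine ⟨hfin.toFinset, ?_, ?_⟩
      · rw [← Set.ncard_eq_toFinset_card _ hfin]
        exact hx
      · intro n hn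
        rw [Set.Finite.mem_toFinset] at hn
        obtain ⟨-, hn2, hn3, hn4⟩ := hn
        obtain ⟨θ, h1, h2, h3, p, hp, hq⟩ := four a n hn3 hinj hn4
        exact ⟨hn2, θ, p, ⟨⟨h1, h2, h3⟩, hq⟩, hp⟩) ε hε
  filter_upwards [h, eventually_ge_atTop 1] with N hN hN1
  obtain ⟨θ, hθ⟩ := hN
  have hNpos : (0 : ℝ) < N := by exact_mod_cast hN1
  have h4e : ((4 : ℕ) : ℝ) - ε = 4 - ε := by norm_num
  by_cases hord : a (θ 0) < a (θ 1) ∧ a (θ 1) < a (θ 2) ∧ a (θ 2) < a (θ 3)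
  · refine ⟨θ, hord.1, hord.2.1, hord.2.2, hθ.trans ?_⟩
    rw [Nat.cast_le]
    apply card_le_card
    intro n hn
    obtain ⟨h1, h2⟩ := mem_filter.1 hn
    refine mem_filter.2 ⟨h1, ?_⟩
    rw [h4e] at h2
    refine h2.trans ?_
    rw [Nat.cast_le]
    apply Set.ncard_le_ncard
    · rintro p ⟨⟨-, h5, h6, h7, h8, h9⟩, h10, h11⟩
      exact ⟨h5, h6, h7, h8, h9, h10, h11⟩
    · apply (Set.finite_lt_nat ((n + 1) ^ 5)).subset
      rintro p ⟨-, -, -, -, -, -, h6⟩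
      exact lt_of_le_of_lt (Nat.le_add_right _ _) h6
  · exfalso
    have h2 : ((Icc 1 N).filter (fun n : ℕ => (n : ℝ) ^ (((4 : ℕ) : ℝ) - ε) ≤
        (inside (4 + 1) {p | (a (θ 0) < a (θ 1) ∧ a (θ 1) < a (θ 2) ∧ a (θ 2) < a (θ 3)) ∧
          Quad (a (θ 1) - a (θ 0)).toNat (a (θ 2) - a (θ 0)).toNat (a (θ 3) - a (θ 0)).toNat p}
          (a (θ 3) - a (θ 0)).toNat n : ℝ))) = ∅ := by
      apply filter_eq_empty_iff.2
      intro n hn h3
      have h4 : inside (4 + 1) {p | (a (θ 0) < a (θ 1) ∧ a (θ 1) < a (θ 2) ∧ a (θ 2) < a (θ 3)) ∧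
          Quad (a (θ 1) - a (θ 0)).toNat (a (θ 2) - a (θ 0)).toNat (a (θ 3) - a (θ 0)).toNat p}
          (a (θ 3) - a (θ 0)).toNat n = 0 := by
        rw [inside]
        have : {p : ℕ | p ∈ {p | (a (θ 0) < a (θ 1) ∧ a (θ 1) < a (θ 2) ∧ a (θ 2) < a (θ 3)) ∧
            Quad (a (θ 1) - a (θ 0)).toNat (a (θ 2) - a (θ 0)).toNat (a (θ 3) - a (θ 0)).toNat p} ∧
            n ^ (4 + 1) < p ∧ p + (a (θ 3) - a (θ 0)).toNat < (n + 1) ^ (4 + 1)} = ∅ := by
          ext p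
          simp only [Set.mem_ofPred_eq, Set.mem_empty_iff_false, iff_false]
          rintro ⟨⟨h5, -⟩, -⟩
          exact hord h5
        rw [this, Set.ncard_empty]
      rw [h4, Nat.cast_zero] at h3
      have h5 : (0 : ℝ) < n := by exact_mod_cast (mem_Icc.1 hn).1
      exact absurd h3 (not_le.2 (Real.rpow_pos_of_pos h5 _))
    have h3 : (N : ℝ) ^ (1 - ε) ≤ ((((Icc 1 N).filter (fun n : ℕ => (n : ℝ) ^ (((4 : ℕ) : ℝ) - ε) ≤
        (inside (4 + 1) {p | (a (θ 0) < a (θ 1) ∧ a (θ 1) < a (θ 2) ∧ a (θ 2) < a (θ 3)) ∧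
          Quad (a (θ 1) - a (θ 0)).toNat (a (θ 2) - a (θ 0)).toNat (a (θ 3) - a (θ 0)).toNat p}
          (a (θ 3) - a (θ 0)).toNat n : ℝ))).card : ℕ) : ℝ) := hθ
    rw [h2, card_empty, Nat.cast_zero] at h3
    exact absurd h3 (not_le.2 (Real.rpow_pos_of_pos hNpos _))

open Classical in
/-- (1) Let `H` be a set of at least 290687 integers which misses a residue class modulo every prime. For all
`ε > 0` and all large `N` there are `s 0 < s 1 < s 2 < s 3` in `H` such that for at least `N ^ (1 - ε)` of the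
`n ≤ N` there are at least `n ^ (4 - ε)` primes `p` for which `p, p + (s 1 - s 0), p + (s 2 - s 0),
p + (s 3 - s 0)` are four consecutive primes between `n ^ 5` and `(n + 1) ^ 5`.
(2) For all `ε > 0` and all large `N` there are `0 < a < b < c ≤ 4209616` such that for at least `N ^ (1 - ε)`
of the `n ≤ N` there are at least `n ^ (4 - ε)` primes `p` for which `p, p + a, p + b, p + c` are four
consecutive primes between `n ^ 5` and `(n + 1) ^ 5`. -/
theorem result :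
    (∀ H : Finset ℤ, 290687 ≤ H.card → (∀ p : ℕ, p.Prime → ∃ r : ℤ, ∀ h ∈ H, ¬ (p : ℤ) ∣ r + h) →
      ∀ ε : ℝ, 0 < ε → ∀ᶠ N : ℕ in atTop, ∃ s : Fin 4 → ℤ, (∀ i, s i ∈ H) ∧ StrictMono s ∧
        (N : ℝ) ^ (1 - ε) ≤ (((Icc 1 N).filter (fun n : ℕ => (n : ℝ) ^ (4 - ε) ≤
          (quadruplets (s 1 - s 0).toNat (s 2 - s 0).toNat (s 3 - s 0).toNat n : ℝ))).card : ℝ)) ∧
    (∀ ε : ℝ, 0 < ε → ∀ᶠ N : ℕ in atTop, ∃ a b c : ℕ, 0 < a ∧ a < b ∧ b < c ∧ c ≤ 4209616 ∧
      (N : ℝ) ^ (1 - ε) ≤ (((Icc 1 N).filter (fun n : ℕ => (n : ℝ) ^ (4 - ε) ≤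
        (quadruplets a b c n : ℝ))).card : ℝ)) := by
  have hmono : ∀ {K : ℕ} (a : Fin K → ℤ) (θ : Fin 4 → Fin K), a (θ 0) < a (θ 1) → a (θ 1) < a (θ 2) →
      a (θ 2) < a (θ 3) → StrictMono (fun i => a (θ i)) := by
    intro K a θ h1 h2 h3
    rw [Fin.strictMono_iff_lt_succ]
    intro i
    fin_cases i
    · exact h1
    · exact h2
    · exact h3
  constructor
  · intro H hH hadm ε hε
    have hinj : Function.Injective (fun i => H.orderEmbOfFin rfl i) := (H.orderEmbOfFin rfl).injective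
    filter_upwards [core hH (fun i => H.orderEmbOfFin rfl i) hinj (fun p hp => by
      obtain ⟨r, hr⟩ := hadm p hp
      exact ⟨r, fun i => hr _ (H.orderEmbOfFin_mem rfl i)⟩) ε hε] with N hN
    obtain ⟨θ, h1, h2, h3, h4⟩ := hN
    exact ⟨fun i => H.orderEmbOfFin rfl (θ i), fun i => H.orderEmbOfFin_mem rfl _,
      hmono (fun i => H.orderEmbOfFin rfl i) θ h1 h2 h3, h4⟩
  · intro ε hε
    obtain ⟨h, hadm, hle⟩ := Pool.Agent.H358R5.tup4
    filter_upwards [core le_rfl (fun i => (h i : ℤ)) (fun i j hij => hadm.1 (by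
        have h' : (h i : ℤ) = h j := hij
        exact_mod_cast h')) (fun p hp => by
      obtain ⟨r, hr⟩ := hadm.2 p hp
      exact ⟨r, fun i hi => hr i (by exact_mod_cast hi)⟩) ε hε] with N hN
    obtain ⟨θ, h1, h2, h3, h4⟩ := hN
    have h5 := hle (θ 3)
    refine ⟨_, _, _, ?_, ?_, ?_, ?_, h4⟩ <;> omega

end Pool.Agent.Results.MP_c03ca8_nt.FourConsecutivePrimes
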