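import Pool.Agent.helper24_UT.Ch20

set_option autoImplicit false

/-!
# Prime tuples `(p, p + h_1, …, p + h_k)` between consecutive `d`-th powers, for almost all `n` and almost all `h`

Let `d ≥ 2` and `k ≥ 1` be fixed (`d = 5` and `k = 3` in the problem), let `m` be large and `m < n ≤ 2 m`. The primes `p` between the consecutive powers
`n ^ d` and `(n + 1) ^ d`, more precisely with `n ^ d < p ≤ n ^ d + m ^ (d - 1)`, for which `p + h_1, …, p + h_k` are primes as well are counted by the formula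
of Hardy and Littlewood, for all but at most `m (2 m) ^ (d k) / (log m) ^ A` of the pairs `(n, h)` with `1 ≤ h_i ≤ (2 m) ^ d`; moreover they are
equidistributed in the residue classes: the number of those with `p ≤ n ^ d + y`, `p ≡ r (mod q)` is the expected one up to an error whose squares, summed
over ALL moduli `q ≤ Q = m ^ (d - 1) exp (- B (log log m) ^ 2)` and over all residue classes `r` modulo `q` for which all `r + h_i` and `r` are coprime to `q`,
have the sum at most `m ^ (2 (d - 1)) / (log m) ^ A`; the length `y = y(q, r) ≤ m ^ (d - 1)` may be chosen in every class as unfavourably as possible. If there is no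
local obstruction, there is such a prime `p` between `n ^ d` and `(n + 1) ^ d`.

Proof. The result for almost all short intervals `(x, x + K]`, `K ≥ X ^ (1 / 3 + ε)` (`Pool.Agent.helper24_UT.Ch.t_R14`, the method of Mikawa), is carried over to
special intervals `(u_j, u_j + K]`, if they cover a proportion of at least `(log X) ^ (- C)` (`t_R30`): every special interval is cut into
slightly shorter intervals with starting points near it, and the initial segments are arbitrary.
-/

namespace Pool.Agent.Results.MP_c03ca8_nt.TuplesBetweenPowers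

open Finset

variable {k : ℕ}

/-- the number `ν_p` of the distinct residue classes modulo `p` occupied by the `a_i` -/
def nu (a : Fin k → ℕ) (p : ℕ) : ℕ := (univ.image fun i => a i % p).card

/-- the factor of the singular series at the prime `p` -/
noncomputable def factor (a : Fin k → ℕ) (p : Nat.Primes) : ℝ :=
  (1 - (nu a p : ℝ) / ((p : ℕ) : ℝ)) / (1 - 1 / ((p : ℕ) : ℝ)) ^ k

/-- the singular series `𝔖(a_1, …, a_k)` -/
noncomputable def series (a : Fin k → ℕ) : ℝ := ∏' p : Nat.Primes, factor a p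

/-- the number of the `1 ≤ n ≤ y` with `n ≡ r (mod q)` for which all `n + a_i` are prime (for `r < q`) -/
def count (a : Fin k → ℕ) (q r y : ℕ) : ℕ :=
  ((Icc 1 y).filter (fun n => n % q = r ∧ ∀ i, (n + a i).Prime)).card

/-- `∑_{n ≤ y} ∏_i 1 / log (n + a_i)` -/
noncomputable def logSum (a : Fin k → ℕ) (y : ℕ) : ℝ := ∑ n ∈ Icc 1 y, ∏ i, 1 / Real.log ((n + a i : ℕ) : ℝ)

/-- the residues `r` modulo `q` for which all `r + a_i` are coprime to `q` -/
def residues (a : Fin k → ℕ) (q : ℕ) : Finset ℕ := (range q).filter (fun r => ∀ i, (r + a i).Coprime q)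

/-- the vector `(0, h_1, …, h_k)` -/
def tuple (h : Fin k → ℕ) : Fin (k + 1) → ℕ := Fin.cons 0 h

/-- For the tuple `a = (0, h_1, …, h_k)`: the entries are distinct, the singular series converges, it is at least `c` if there is no local obstruction;
(1) for all `y ≤ m ^ (d - 1)` the number of the `p`, `n ^ d < p ≤ n ^ d + y`, with all `p + a_i` prime is the expected one up to `m ^ (d - 1) / (log m) ^ A`;
(2) for all `Q ≤ m ^ (d - 1) exp (- B (log log m) ^ 2)` and all choices of the lengths `y q r ≤ m ^ (d - 1)` the sum, over all `q ≤ Q` and all residues `r` of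
`residues a q`, of the squares of `count - (𝔖 / φ_a(q)) logSum`, both taken over `n ^ d < p ≤ n ^ d + y q r`, is at most `m ^ (2 (d - 1)) / (log m) ^ A`;
(3) if there is no local obstruction, there is a prime `p` with `n ^ d < p < (n + 1) ^ d` for which all `p + h_i` are prime. -/
def Holds (c : ℝ) (A B d m n : ℕ) (h : Fin k → ℕ) : Prop :=
  Function.Injective (tuple h) ∧ Multipliable (factor (tuple h)) ∧
    ((∀ p : ℕ, p.Prime → nu (tuple h) p < p) → c ≤ series (tuple h)) ∧
    (∀ y : ℕ, y ≤ m ^ (d - 1) →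
      |((count (tuple h) 1 0 (n ^ d + y) : ℝ) - count (tuple h) 1 0 (n ^ d)) -
        series (tuple h) * (logSum (tuple h) (n ^ d + y) - logSum (tuple h) (n ^ d))| ≤ (m : ℝ) ^ (d - 1) / (Real.log m) ^ A) ∧
    (∀ Q : ℕ, (Q : ℝ) ≤ (m : ℝ) ^ (d - 1) * Real.exp (-(B * Real.log (Real.log m) ^ 2)) →
      ∀ y : ℕ → ℕ → ℕ, (∀ q r, y q r ≤ m ^ (d - 1)) →
      ∑ q ∈ Icc 1 Q, ∑ r ∈ residues (tuple h) q,
        (((count (tuple h) q r (n ^ d + y q r) : ℝ) - count (tuple h) q r (n ^ d)) -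
          series (tuple h) / (residues (tuple h) q).card *
            (logSum (tuple h) (n ^ d + y q r) - logSum (tuple h) (n ^ d))) ^ 2 ≤
        (m : ℝ) ^ (2 * (d - 1)) / (Real.log m) ^ A) ∧
    ((∀ p : ℕ, p.Prime → nu (tuple h) p < p) →
      ∃ p : ℕ, n ^ d < p ∧ p < (n + 1) ^ d ∧ p.Prime ∧ ∀ i, (p + h i).Prime)

theorem nu_eq (a : Fin k → ℕ) (p : ℕ) (hp : 1 ≤ p) :
    Pool.Agent.helper24_UT.nuf (fun _ => 1) (fun i => (a i : ℤ)) p = nu a p := by
  classical
  unfold Pool.Agent.helper24_UT.nuf nu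
  have hp0 : (0 : ℤ) < (p : ℤ) := by exact_mod_cast hp
  have hset : ((range p).filter (fun t : ℕ => ∃ i, (p : ℤ) ∣ (1 : ℤ) * t + a i)) =
      (univ.image fun i => a i % p).image (fun x => (p - x) % p) := by
    ext t
    rw [mem_filter, mem_range, mem_image]
    constructor
    · rintro ⟨ht, i, hi⟩
      refine ⟨a i % p, mem_image_of_mem _ (mem_univ i), ?_⟩
      have h1 : p ∣ t + a i := by
        have h2 : (p : ℤ) ∣ ((t + a i : ℕ) : ℤ) := by push_cast; rw [one_mul] at hi; exact hi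
        exact_mod_cast h2
      have h3 : p ∣ t + a i % p := by
        have h4 : t + a i = (t + a i % p) + p * (a i / p) := by
          have := Nat.mod_add_div (a i) p
          omega
        rw [h4] at h1
        exact (Nat.dvd_add_left (Dvd.intro _ rfl)).1 h1
      have h5 : a i % p < p := Nat.mod_lt _ hp
      obtain ⟨c, hc⟩ := h3
      have hc2 : c < 2 := by
        by_contra hcon
        have : p * 2 ≤ p * c := Nat.mul_le_mul_left _ (by omega)
        omega
      interval_cases c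
      · have : a i % p = 0 := by omega
        rw [this, Nat.sub_zero, Nat.mod_self]
        omega
      · have : p - a i % p = t := by omega
        rw [this, Nat.mod_eq_of_lt ht]
    · rintro ⟨x, hx, rfl⟩
      rw [mem_image] at hx
      obtain ⟨i, _, rfl⟩ := hx
      have h5 : a i % p < p := Nat.mod_lt _ hp
      refine ⟨Nat.mod_lt _ hp, i, ?_⟩
      rw [one_mul]
      have h1 : (((p - a i % p) % p : ℕ) : ℤ) + a i = ((((p - a i % p) % p + a i : ℕ)) : ℤ) := by push_cast; ring
      rw [h1]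
      have h2 : p ∣ (p - a i % p) % p + a i := by
        have h3 : ((p - a i % p) % p + a i) % p = 0 := by
          rw [Nat.mod_add_mod]
          have h4 : p - a i % p + a i = p + p * (a i / p) := by
            have := Nat.mod_add_div (a i) p
            omega
          rw [h4, Nat.add_mul_mod_self_left, Nat.mod_self]
        exact Nat.dvd_of_mod_eq_zero h3
      exact_mod_cast h2
  have hcard : ((univ.image fun i => a i % p).image (fun x => (p - x) % p)).card = (univ.image fun i => a i % p).card := by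
    apply card_image_of_injOn
    intro x hx y hy hxy
    rw [mem_coe, mem_image] at hx hy
    obtain ⟨i, _, rfl⟩ := hx
    obtain ⟨j, _, rfl⟩ := hy
    have h5 : a i % p < p := Nat.mod_lt _ hp
    have h6 : a j % p < p := Nat.mod_lt _ hp
    have hxy' : (p - a i % p) % p = (p - a j % p) % p := hxy
    generalize a i % p = u at *
    generalize a j % p = v at *
    rcases Nat.eq_zero_or_pos u with h7 | h7 <;> rcases Nat.eq_zero_or_pos v with h8 | h8
    · rw [h7, h8]
    · rw [h7, Nat.sub_zero, Nat.mod_self, Nat.mod_eq_of_lt (by omega)] at hxy'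
      omega
    · rw [h8, Nat.sub_zero, Nat.mod_self, Nat.mod_eq_of_lt (by omega)] at hxy'
      omega
    · rw [Nat.mod_eq_of_lt (by omega), Nat.mod_eq_of_lt (by omega)] at hxy'
      omega
  rw [← hcard, ← hset]

theorem series_eq (a : Fin k → ℕ) :
    Pool.Agent.helper24_UT.sers (fun _ => 1) (fun i => (a i : ℤ)) = series a := by
  unfold Pool.Agent.helper24_UT.sers series factor
  congr 1
  funext p
  rw [nu_eq a p p.2.one_le]

theorem count_eq (a : Fin k → ℕ) (q r y : ℕ) : Pool.Agent.helper24_UT.cntT a q r y = count a q r y := by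
  classical
  unfold Pool.Agent.helper24_UT.cntT count
  congr 1

theorem phi_eq (a : Fin k → ℕ) (q : ℕ) :
    Pool.Agent.helper24_UT.phf (fun _ => 1) (fun i => (a i : ℤ)) q = (residues a q).card := by
  classical
  unfold Pool.Agent.helper24_UT.phf residues
  congr 1
  apply filter_congr
  intro t _
  apply forall_congr'
  intro i
  rw [one_mul]
  have h : ((t : ℤ) + (a i : ℤ)) = ((t + a i : ℕ) : ℤ) := by push_cast; ring
  rw [h, Int.gcd_natCast_natCast]

lemma pow_step (a d : ℕ) (hd : 1 ≤ d) : a ^ d + a ^ (d - 1) ≤ (a + 1) ^ d := by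
  obtain ⟨e, rfl⟩ : ∃ e, d = e + 1 := ⟨d - 1, by omega⟩
  rw [Nat.add_sub_cancel]
  have h1 : a ^ e ≤ (a + 1) ^ e := Nat.pow_le_pow_left (by omega) e
  calc a ^ (e + 1) + a ^ e = a ^ e * (a + 1) := by ring
    _ ≤ (a + 1) ^ e * (a + 1) := Nat.mul_le_mul_right _ h1
    _ = (a + 1) ^ (e + 1) := by ring

lemma pow_gap (a b d : ℕ) (hd : 1 ≤ d) (hab : a < b) : a ^ d + a ^ (d - 1) ≤ b ^ d :=
  (pow_step a d hd).trans (Nat.pow_le_pow_left (by omega) d)

/-- the special windows -/
lemma spw (d m : ℕ) (hd : 2 ≤ d) (hm : 1 ≤ m) (hL : (2 : ℝ) ^ d ≤ Real.log (((2 * m) ^ d : ℕ) : ℝ)) :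
    Pool.Agent.helper24_UT.SpW 1 ((2 * m) ^ d) (m ^ (d - 1)) m (fun j => (m + j) ^ d) := by
  have h2 : (1 : ℝ) ≤ 2 ^ d := one_le_pow₀ (by norm_num)
  refine ⟨fun j hj => ?_, fun x => ?_, ?_⟩
  · have hj := mem_Icc.1 hj
    exact Nat.pow_le_pow_left (by omega) d
  · rw [pow_one]
    refine le_trans ?_ (h2.trans hL)
    have h3 : ((Icc 1 m).filter (fun j => x ≤ (m + j) ^ d ∧ (m + j) ^ d < x + m ^ (d - 1))).card ≤ 1 := by
      rw [card_le_one]
      have key : ∀ i j : ℕ, i < j → x ≤ (m + i) ^ d → (m + j) ^ d < x + m ^ (d - 1) → False := by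
        intro i j hij h4 h5
        have h6 := pow_gap (m + i) (m + j) d (by omega) (by omega)
        have h7 : m ^ (d - 1) ≤ (m + i) ^ (d - 1) := Nat.pow_le_pow_left (by omega) _
        omega
      intro i hi j hj
      have hi := (mem_filter.1 hi).2
      have hj := (mem_filter.1 hj).2
      by_contra hne
      rcases Nat.lt_or_gt_of_ne hne with h4 | h4
      · exact key i j h4 hi.1 hj.2
      · exact key j i h4 hj.1 hi.2
    exact_mod_cast h3
  · rw [pow_one]
    have h4 : (m : ℝ) * ((m ^ (d - 1) : ℕ) : ℝ) = (m : ℝ) ^ d := by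
      push_cast
      rw [← pow_succ', Nat.sub_add_cancel (by omega)]
    rw [h4]
    calc (((2 * m) ^ d : ℕ) : ℝ) = (m : ℝ) ^ d * 2 ^ d := by push_cast; rw [mul_pow]; ring
      _ ≤ _ := mul_le_mul_of_nonneg_left hL (by positivity)

lemma size (d m : ℕ) (hd : 2 ≤ d) (hm : 2 ^ (10 * d) ≤ m) :
    (((2 * m) ^ d : ℕ) : ℝ) ^ (1 / 3 + 1 / (7 : ℕ) : ℝ) ≤ ((m ^ (d - 1) : ℕ) : ℝ) := by
  have h1 : (2 * m) ^ (10 * d) ≤ m ^ (21 * (d - 1)) := by
    calc (2 * m) ^ (10 * d) = 2 ^ (10 * d) * m ^ (10 * d) := mul_pow _ _ _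
      _ ≤ m * m ^ (10 * d) := Nat.mul_le_mul_right _ hm
      _ = m ^ (10 * d + 1) := by ring
      _ ≤ m ^ (21 * (d - 1)) := Nat.pow_le_pow_right (by have := Nat.one_le_two_pow (n := 10 * d); omega) (by omega)
  have h2 : ((((2 * m) ^ d : ℕ) : ℝ)) ^ (10 : ℕ) ≤ (((m ^ (d - 1) : ℕ) : ℝ)) ^ (21 : ℕ) := by
    have h3 : ((2 * m) ^ d) ^ 10 ≤ (m ^ (d - 1)) ^ 21 := by
      rw [← pow_mul, ← pow_mul, mul_comm d 10, mul_comm (d - 1) 21]
      exact h1
    exact_mod_cast h3
  have h4 : (0 : ℝ) ≤ (((2 * m) ^ d : ℕ) : ℝ) := Nat.cast_nonneg _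
  have h5 : (0 : ℝ) ≤ ((m ^ (d - 1) : ℕ) : ℝ) := Nat.cast_nonneg _
  have e1 : (1 / 3 + 1 / ((7 : ℕ) : ℝ) : ℝ) = (10 : ℕ) * (1 / 21) := by norm_num
  rw [e1, Real.rpow_mul h4, Real.rpow_natCast]
  calc ((((2 * m) ^ d : ℕ) : ℝ) ^ 10) ^ (1 / 21 : ℝ) ≤ ((((m ^ (d - 1) : ℕ) : ℝ)) ^ (21 : ℕ)) ^ (1 / 21 : ℝ) :=
        Real.rpow_le_rpow (by positivity) h2 (by norm_num)
    _ = ((m ^ (d - 1) : ℕ) : ℝ) := by
      rw [← Real.rpow_natCast, ← Real.rpow_mul h5]
      norm_num

/-- large numbers -/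
lemma large (d B : ℕ) (L : ℝ) : ∃ m₀ : ℕ, ∀ m : ℕ, m₀ ≤ m → L ≤ Real.log m ∧
    1 ≤ (m : ℝ) * Real.exp (-(B * Real.log (Real.log m) ^ 2)) ∧
    Real.log (((2 * m) ^ d : ℕ) : ℝ) ≤ Real.log m ^ 2 ∧ 1 ≤ Real.log m := by
  have hlog : Filter.Tendsto (fun N : ℕ => Real.log (N : ℝ)) Filter.atTop Filter.atTop :=
    Real.tendsto_log_atTop.comp tendsto_natCast_atTop_atTop
  have h1 : ∀ᶠ N : ℕ in Filter.atTop, max L (2 * d + 1) ≤ Real.log N := hlog.eventually_ge_atTop _
  have h3 : ∀ᶠ x : ℝ in Filter.atTop, ‖Real.log x ^ 2‖ ≤ 1 / (B + 1 : ℝ) * ‖x‖ :=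
    (Real.isLittleO_pow_log_id_atTop (n := 2)).bound (by positivity)
  obtain ⟨N₁, hN₁⟩ := Filter.eventually_atTop.1 (h1.and (hlog.eventually h3))
  refine ⟨max N₁ 2, fun N hN => ?_⟩
  obtain ⟨g1, g3⟩ := hN₁ N ((le_max_left _ _).trans hN)
  have hN2 : (2 : ℝ) ≤ N := by exact_mod_cast (le_max_right _ _).trans hN
  have hNpos : (0 : ℝ) < N := by linarith
  have hd0 : (0 : ℝ) ≤ d := Nat.cast_nonneg _
  have hl1 : 2 * (d : ℝ) + 1 ≤ Real.log N := (le_max_right _ _).trans g1
  have hl2 : 1 ≤ Real.log N := by linarith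
  refine ⟨(le_max_left _ _).trans g1, ?_, ?_, hl2⟩
  · rw [Real.norm_eq_abs, Real.norm_eq_abs, abs_of_pos (by linarith : (0 : ℝ) < Real.log N)] at g3
    have g4 := (le_abs_self _).trans g3
    have hB : (0 : ℝ) ≤ B := Nat.cast_nonneg _
    rw [div_mul_eq_mul_div, one_mul, le_div_iff₀ (by positivity)] at g4
    have g5 : B * Real.log (Real.log N) ^ 2 ≤ Real.log N := by nlinarith [sq_nonneg (Real.log (Real.log N))]
    calc (1 : ℝ) = N * Real.exp (-Real.log N) := by rw [Real.exp_neg, Real.exp_log hNpos, mul_inv_cancel₀ hNpos.ne']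
      _ ≤ _ := by
        apply mul_le_mul_of_nonneg_left _ hNpos.le
        apply Real.exp_le_exp.2
        linarith
  · push_cast
    rw [Real.log_pow, Real.log_mul (by norm_num) hNpos.ne']
    have h5 : Real.log 2 ≤ Real.log N := Real.log_le_log (by norm_num) hN2
    nlinarith

lemma logSum_diff (a : Fin k → ℕ) (x y : ℕ) (L : ℝ) (hL : 0 < L) (hx : 1 ≤ x)
    (ha : ∀ i, Real.log ((x + y + a i : ℕ) : ℝ) ≤ L) : (y : ℝ) / L ^ k ≤ logSum a (x + y) - logSum a x := by
  unfold logSum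
  have hsub : Icc 1 x ⊆ Icc 1 (x + y) := Icc_subset_Icc le_rfl (by omega)
  rw [← sum_sdiff hsub, add_sub_cancel_right]
  have hcard : (Icc 1 (x + y) \ Icc 1 x).card = y := by
    rw [card_sdiff_of_subset hsub, Nat.card_Icc, Nat.card_Icc]
    omega
  calc (y : ℝ) / L ^ k = ∑ t ∈ Icc 1 (x + y) \ Icc 1 x, ∏ _i : Fin k, 1 / L := by
        rw [sum_const, hcard, prod_const, card_univ, Fintype.card_fin, nsmul_eq_mul, one_div, inv_pow, div_eq_mul_inv]
    _ ≤ _ := by
      apply sum_le_sum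
      intro t ht
      rw [mem_sdiff, mem_Icc, mem_Icc] at ht
      have ht1 : x < t := by
        by_contra hcon
        exact ht.2 ⟨ht.1.1, by omega⟩
      apply prod_le_prod
      · intro i _
        positivity
      · intro i _
        have h1 : 0 < Real.log ((t + a i : ℕ) : ℝ) := Real.log_pos (by exact_mod_cast (by omega : 1 < t + a i))
        apply one_div_le_one_div_of_le h1
        refine le_trans (Real.log_le_log (by exact_mod_cast (by omega : 0 < t + a i)) ?_) (ha i)
        exact_mod_cast (by omega : t + a i ≤ x + y + a i)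

/-- one pair `(n, h)` -/
lemma one_pair (k d A B : ℕ) (hd : 2 ≤ d) (c : ℝ) (hc : 0 < c)
    (hS : ∀ (σ h : Fin (k + 1) → ℤ), (∀ i, σ i = 1 ∨ σ i = -1) → (∀ i j, i ≠ j → σ i * h j ≠ σ j * h i) →
      Multipliable (fun p : Nat.Primes => (1 - (Pool.Agent.helper24_UT.nuf σ h p : ℝ) / ((p : ℕ) : ℝ)) /
        (1 - 1 / ((p : ℕ) : ℝ)) ^ (k + 1)) ∧
      ((∀ p : ℕ, p.Prime → Pool.Agent.helper24_UT.nuf σ h p < p) → c ≤ Pool.Agent.helper24_UT.sers σ h)) :
    ∃ m₀ : ℕ, ∀ m : ℕ, m₀ ≤ m → ∀ (n : ℕ) (h : Fin k → ℕ), m < n → n ≤ 2 * m → (∀ i, h i ≤ (2 * m) ^ d) →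
      Pool.Agent.helper24_UT.Good14 (2 * (A + k + 3)) B ((2 * m) ^ d) (m ^ (d - 1)) (n ^ d) (Fin.cons 0 h : Fin (k + 1) → ℕ) →
      Holds c A (4 * B) d m n h := by
  obtain ⟨m₁, h1⟩ := large d (4 * B) (2 ^ (k + 2) / c)
  refine ⟨max m₁ 3, fun m hm n h hmn hnm hh hg => ?_⟩
  have hm3 : 3 ≤ m := (le_max_right _ _).trans hm
  obtain ⟨hL, hQ1, hLX2, hL1⟩ := h1 m ((le_max_left _ _).trans hm)
  obtain ⟨hinj, hg⟩ := hg
  set X := (2 * m) ^ d with hX
  set K := m ^ (d - 1) with hK
  set L := Real.log m with hLdef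
  set LX := Real.log (X : ℝ) with hLXdef
  have hm0 : (0 : ℝ) < m := by exact_mod_cast (by omega : 0 < m)
  have hmX : m ≤ X := by
    calc m ≤ (2 * m) ^ 1 := by rw [pow_one]; omega
      _ ≤ (2 * m) ^ d := Nat.pow_le_pow_right (by omega) (by omega)
  have hX0 : (0 : ℝ) < X := by exact_mod_cast (by omega : 0 < X)
  have hLLX : L ≤ LX := Real.log_le_log hm0 (by exact_mod_cast hmX)
  have hLp : 0 < L := by linarith
  have hLXp : 0 < LX := by linarith
  have hKr : (K : ℝ) = (m : ℝ) ^ (d - 1) := by rw [hK]; push_cast; ring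
  have hK0 : (0 : ℝ) < K := by rw [hKr]; positivity
  have hlevel : (m : ℝ) ^ (d - 1) * Real.exp (-((4 * B : ℕ) * Real.log L ^ 2)) ≤ K * Real.exp (-(B * Real.log LX ^ 2)) := by
    rw [← hKr]
    apply mul_le_mul_of_nonneg_left _ hK0.le
    apply Real.exp_le_exp.2
    have h2 : Real.log LX ≤ 2 * Real.log L := by
      calc Real.log LX ≤ Real.log (L ^ 2) := Real.log_le_log hLXp hLX2
        _ = 2 * Real.log L := by rw [Real.log_pow]; norm_num
    have h3 : 0 ≤ Real.log LX := Real.log_nonneg (by linarith)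
    have h4 : Real.log LX ^ 2 ≤ 4 * Real.log L ^ 2 := by nlinarith
    have hB : (0 : ℝ) ≤ B := Nat.cast_nonneg _
    push_cast
    nlinarith
  have hser := series_eq (tuple h)
  have hcommon : ∀ Q : ℕ, (Q : ℝ) ≤ (m : ℝ) ^ (d - 1) * Real.exp (-((4 * B : ℕ) * Real.log L ^ 2)) →
      ∀ y : ℕ → ℕ → ℕ, (∀ q r, y q r ≤ m ^ (d - 1)) →
      ∑ q ∈ Icc 1 Q, ∑ r ∈ residues (tuple h) q,
        (((count (tuple h) q r (n ^ d + y q r) : ℝ) - count (tuple h) q r (n ^ d)) -
          series (tuple h) / (residues (tuple h) q).card *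
            (logSum (tuple h) (n ^ d + y q r) - logSum (tuple h) (n ^ d))) ^ 2 ≤
        (K : ℝ) ^ 2 / LX ^ (2 * (A + k + 3)) := by
    intro Q hQ y hy
    have h3 := hg Q (hQ.trans hlevel) y hy
    have h4 : Pool.Agent.helper24_UT.sers (fun _ => 1) (fun i => (((Fin.cons 0 h : Fin (k + 1) → ℕ) i : ℕ) : ℤ)) =
      series (tuple h) := hser
    rw [h4] at h3
    simp only [phi_eq, count_eq] at h3
    exact h3
  have hone : ∀ y : ℕ, y ≤ m ^ (d - 1) →
      |((count (tuple h) 1 0 (n ^ d + y) : ℝ) - count (tuple h) 1 0 (n ^ d)) -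
        series (tuple h) * (logSum (tuple h) (n ^ d + y) - logSum (tuple h) (n ^ d))| ≤ (K : ℝ) / LX ^ (A + k + 3) := by
    intro y hy
    have hQ1' : ((1 : ℕ) : ℝ) ≤ (m : ℝ) ^ (d - 1) * Real.exp (-((4 * B : ℕ) * Real.log L ^ 2)) := by
      rw [Nat.cast_one]
      refine hQ1.trans ?_
      apply mul_le_mul_of_nonneg_right _ (Real.exp_pos _).le
      exact le_self_pow₀ (by exact_mod_cast (by omega : 1 ≤ m)) (by omega)
    have h3 := hcommon 1 hQ1' (fun _ _ => y) (fun _ _ => hy)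
    have hres : residues (tuple h) 1 = {0} := by
      ext r
      unfold residues
      rw [mem_filter, mem_range, mem_singleton]
      constructor
      · rintro ⟨h4, _⟩
        omega
      · rintro rfl
        exact ⟨by omega, fun i => Nat.coprime_one_right _⟩
    rw [Icc_self, sum_singleton, hres, sum_singleton, card_singleton, Nat.cast_one, div_one] at h3
    apply abs_le_of_sq_le_sq _ (by positivity)
    rw [div_pow, ← pow_mul]
    refine h3.trans (le_of_eq ?_)
    congr 2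
    ring
  have hne : ∀ i j : Fin (k + 1), i ≠ j → (1 : ℤ) * ((tuple h j : ℕ) : ℤ) ≠ 1 * ((tuple h i : ℕ) : ℤ) := by
    intro i j hij heq
    rw [one_mul, one_mul] at heq
    exact hij (hinj (by exact_mod_cast heq.symm))
  obtain ⟨hmul, hl⟩ := hS (fun _ => 1) (fun i => ((tuple h i : ℕ) : ℤ)) (fun _ => Or.inl rfl) hne
  have hlow : (∀ p : ℕ, p.Prime → nu (tuple h) p < p) → c ≤ series (tuple h) := by
    intro hp
    rw [← series_eq]
    apply hl
    intro p hp'
    rw [nu_eq (tuple h) p hp'.one_le]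
    exact hp p hp'
  refine ⟨hinj, ?_, hlow, fun y hy => (hone y hy).trans ?_, fun Q hQ y hy => (hcommon Q hQ y hy).trans ?_, fun hloc => ?_⟩
  · convert hmul using 2 with p
    unfold factor
    rw [nu_eq (tuple h) p p.2.one_le]
  · rw [← hKr]
    apply div_le_div_of_nonneg_left hK0.le (by positivity)
    calc L ^ A ≤ L ^ (A + k + 3) := pow_le_pow_right₀ hL1 (by omega)
      _ ≤ _ := pow_le_pow_left₀ hLp.le hLLX _
  · have e1 : (m : ℝ) ^ (2 * (d - 1)) = (K : ℝ) ^ 2 := by rw [hKr, ← pow_mul, mul_comm]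
    rw [e1]
    apply div_le_div_of_nonneg_left (by positivity) (by positivity)
    calc L ^ A ≤ L ^ (2 * (A + k + 3)) := pow_le_pow_right₀ hL1 (by omega)
      _ ≤ _ := pow_le_pow_left₀ hLp.le hLLX _
  · have hc1 := hlow hloc
    have h3 := hone (m ^ (d - 1)) le_rfl
    have hnX : n ^ d ≤ X := Nat.pow_le_pow_left hnm d
    have hKX : m ^ (d - 1) ≤ X := by
      calc m ^ (d - 1) ≤ (2 * m) ^ (d - 1) := Nat.pow_le_pow_left (by omega) _
        _ ≤ (2 * m) ^ d := Nat.pow_le_pow_right (by omega) (by omega)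
    have h4 := logSum_diff (tuple h) (n ^ d) (m ^ (d - 1)) (2 * LX) (by positivity)
      (Nat.one_le_pow _ _ (by omega)) (fun i => by
        have h5 : tuple h i ≤ X := by
          refine Fin.cases ?_ (fun j => ?_) i
          · exact Nat.zero_le _
          · exact hh j
        have h6 : n ^ d + m ^ (d - 1) + tuple h i ≤ X * X := by
          have : 3 * X ≤ X * X := Nat.mul_le_mul_right _ (hm3.trans hmX)
          omega
        have h7 : 0 < n ^ d + m ^ (d - 1) + tuple h i := by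
          have : 0 < n ^ d := Nat.pow_pos (by omega)
          omega
        calc Real.log ((n ^ d + m ^ (d - 1) + tuple h i : ℕ) : ℝ) ≤ Real.log ((X : ℝ) * X) :=
              Real.log_le_log (by exact_mod_cast h7) (by exact_mod_cast h6)
          _ = 2 * LX := by rw [Real.log_mul hX0.ne' hX0.ne']; ring)
    by_contra hno
    push Not at hno
    have heq : count (tuple h) 1 0 (n ^ d + m ^ (d - 1)) = count (tuple h) 1 0 (n ^ d) := by
      unfold count
      congr 1
      ext p
      simp only [mem_filter, mem_Icc]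
      constructor
      · rintro ⟨⟨h5, h6⟩, h7, h8⟩
        refine ⟨⟨h5, ?_⟩, h7, h8⟩
        by_contra h9
        push Not at h9
        have h10 : p < (n + 1) ^ d := by
          have h11 := pow_step n d (by omega)
          have h12 : m ^ (d - 1) < n ^ (d - 1) := Nat.pow_lt_pow_left hmn (by omega)
          omega
        have h13 : p.Prime := by
          have := h8 0
          exact this
        obtain ⟨i, hi⟩ := hno p h9 h10 h13
        exact hi (h8 i.succ)
      · rintro ⟨⟨h5, h6⟩, h7⟩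
        exact ⟨⟨h5, by omega⟩, h7⟩
    rw [heq, sub_self, zero_sub, abs_neg] at h3
    have h5 : c * (K / (2 * LX) ^ (k + 1)) ≤ series (tuple h) *
        (logSum (tuple h) (n ^ d + m ^ (d - 1)) - logSum (tuple h) (n ^ d)) := by
      apply mul_le_mul hc1 h4 (by positivity) (hc.le.trans hc1)
    have h6 := (h5.trans (le_abs_self _)).trans h3
    have h7 : c * LX ^ 2 ≤ 2 ^ (k + 1) := by
      rw [mul_pow, ← mul_div_assoc, div_le_div_iff₀ (by positivity) (by positivity)] at h6
      have h8 : c * K * LX ^ (A + k + 3) = (c * LX ^ 2) * (K * LX ^ (k + 1) * LX ^ A) := by ring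
      have h9 : (1 : ℝ) ≤ LX ^ A := one_le_pow₀ (by linarith)
      rw [h8] at h6
      have h10 : (c * LX ^ 2) * (K * LX ^ (k + 1) * 1) ≤ (c * LX ^ 2) * (K * LX ^ (k + 1) * LX ^ A) := by
        apply mul_le_mul_of_nonneg_left _ (by positivity)
        exact mul_le_mul_of_nonneg_left h9 (by positivity)
      have h11 : (c * LX ^ 2) * (K * LX ^ (k + 1)) ≤ 2 ^ (k + 1) * (K * LX ^ (k + 1)) := by
        calc (c * LX ^ 2) * (K * LX ^ (k + 1)) = (c * LX ^ 2) * (K * LX ^ (k + 1) * 1) := by ring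
          _ ≤ _ := h10
          _ ≤ K * (2 ^ (k + 1) * LX ^ (k + 1)) := h6
          _ = _ := by ring
      exact le_of_mul_le_mul_right h11 (by positivity)
    have h8 : 2 ^ (k + 2) ≤ c * L := by
      rw [div_le_iff₀ hc] at hL
      linarith
    have h9 : c * L ≤ c * LX ^ 2 := by
      apply mul_le_mul_of_nonneg_left _ hc.le
      nlinarith
    have h10 : (2 : ℝ) ^ (k + 2) = 2 * 2 ^ (k + 1) := by ring
    have h11 : (0 : ℝ) < 2 ^ (k + 1) := by positivity
    linarith

open Classical in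
/-- the number of the pairs `(n, h)` with `m < n ≤ 2 m` and `1 ≤ h_i ≤ (2 m) ^ d` for which `Holds` fails -/
noncomputable def exceptions (k d : ℕ) (c : ℝ) (A B m : ℕ) : ℕ :=
  ((Ioc m (2 * m) ×ˢ Fintype.piFinset (fun _ : Fin k => Icc 1 ((2 * m) ^ d))).filter
    (fun v => ¬ Holds c A B d m v.1 v.2)).card

/-- **Prime tuples between consecutive `d`-th powers for almost all `n` and almost all shifts.** -/
theorem result (k d : ℕ) (hk : 1 ≤ k) (hd : 2 ≤ d) : ∃ c : ℝ, 0 < c ∧ ∀ A : ℕ, ∃ B m₀ : ℕ, ∀ m : ℕ, m₀ ≤ m →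
    (exceptions k d c A B m : ℝ) ≤ (m : ℝ) * (2 * (m : ℝ)) ^ (d * k) / Real.log m ^ A := by
  classical
  obtain ⟨c, hc, hS⟩ := Pool.Agent.helper24_UT.Slb.main (k + 1)
  refine ⟨c, hc, fun A => ?_⟩
  obtain ⟨B, X₀, h⟩ := Pool.Agent.helper24_UT.Ch.t_R30 k 7 (2 * (A + k + 3)) 1 hk (by norm_num)
  obtain ⟨m₁, h1⟩ := one_pair k d A B hd c hc hS
  obtain ⟨m₂, h2⟩ := large d 0 (2 ^ d)
  refine ⟨4 * B, max (max m₁ m₂) (max X₀ (2 ^ (10 * d))), fun m hm => ?_⟩
  have hm1 : m₁ ≤ m := (le_max_left _ _).trans ((le_max_left _ _).trans hm)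
  have hm2 : m₂ ≤ m := (le_max_right _ _).trans ((le_max_left _ _).trans hm)
  have hmX : X₀ ≤ m := (le_max_left _ _).trans ((le_max_right _ _).trans hm)
  have hm10 : 2 ^ (10 * d) ≤ m := (le_max_right _ _).trans ((le_max_right _ _).trans hm)
  have hm0 : 1 ≤ m := Nat.one_le_two_pow.trans hm10
  obtain ⟨hL, _, _, hL1⟩ := h2 m hm2
  have hmX' : m ≤ (2 * m) ^ d := by
    calc m ≤ (2 * m) ^ 1 := by rw [pow_one]; omega
      _ ≤ (2 * m) ^ d := Nat.pow_le_pow_right (by omega) (by omega)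
  have hLLX : Real.log m ≤ Real.log (((2 * m) ^ d : ℕ) : ℝ) :=
    Real.log_le_log (by exact_mod_cast (by omega : 0 < m)) (by exact_mod_cast hmX')
  have key := h ((2 * m) ^ d) (hmX.trans hmX') (m ^ (d - 1)) (size d m hd hm10) (by
    calc m ^ (d - 1) ≤ (2 * m) ^ (d - 1) := Nat.pow_le_pow_left (by omega) _
      _ ≤ (2 * m) ^ d := Nat.pow_le_pow_right (by omega) (by omega)) m (fun j => (m + j) ^ d)
    (spw d m hd hm0 (hL.trans hLLX))
  refine le_trans ?_ (key.trans ?_)
  · unfold exceptions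
    refine Nat.cast_le.2 ?_
    refine card_le_card_of_injOn (fun v => (v.1 - m, v.2)) ?_ ?_
    · intro v hv
      have hv := mem_filter.1 (mem_coe.1 hv)
      have hv1 := mem_product.1 hv.1
      have hn := mem_Ioc.1 hv1.1
      have hh := Fintype.mem_piFinset.1 hv1.2
      rw [mem_coe, mem_filter, mem_product]
      have hj : v.1 - m ∈ Icc 1 m := mem_Icc.2 ⟨by omega, by omega⟩
      refine ⟨⟨hj, hv1.2⟩, fun hg => hv.2 ?_⟩
      refine h1 m hm1 v.1 v.2 hn.1 hn.2 (fun i => (mem_Icc.1 (hh i)).2) ?_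
      have e : m + (v.1 - m) = v.1 := by omega
      have hg' : Pool.Agent.helper24_UT.Good14 (2 * (A + k + 3)) B ((2 * m) ^ d) (m ^ (d - 1)) ((m + (v.1 - m)) ^ d)
        (Fin.cons 0 v.2 : Fin (k + 1) → ℕ) := hg
      rw [e] at hg'
      exact hg'
    · intro v hv w hw hvw
      have hv := mem_Ioc.1 (mem_product.1 (mem_filter.1 (mem_coe.1 hv)).1).1
      have hw := mem_Ioc.1 (mem_product.1 (mem_filter.1 (mem_coe.1 hw)).1).1
      have hvw' : (v.1 - m, v.2) = (w.1 - m, w.2) := hvw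
      have e1 : v.1 - m = w.1 - m := (Prod.ext_iff.1 hvw').1
      have e2 : v.2 = w.2 := (Prod.ext_iff.1 hvw').2
      ext1
      · omega
      · exact e2
  · have e1 : (((2 * m) ^ d : ℕ) : ℝ) ^ k = (2 * (m : ℝ)) ^ (d * k) := by
      push_cast
      rw [← pow_mul]
    rw [e1]
    apply div_le_div_of_nonneg_left (by positivity) (by positivity)
    calc Real.log m ^ A ≤ Real.log m ^ (2 * (A + k + 3)) := pow_le_pow_right₀ hL1 (by omega)
      _ ≤ _ := pow_le_pow_left₀ (by linarith) hLLX _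

end Pool.Agent.Results.MP_c03ca8_nt.TuplesBetweenPowers
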